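import Mathlib

/-!
Algebraic part: the `q`-Pascal functional `G` and the two evaluations we need
(the alternating sum and the finite pentagonal sum).
We work in a field `R` with an element `r ≠ 0`; `q = r ^ 12`.
-/

namespace Pool.Agent.Helper30.Split

variable {R : Type*} [Field R]

/-- `G r d φ = ∑_k [d choose k]_q φ k` with `q = r ^ 12`, by the `q`-Pascal recursion. -/
def G (r : R) : ℕ → (ℤ → R) → R
  | 0, φ => φ 0
  | (d + 1), φ => G r d φ + G r d (fun x => r ^ (12 * ((d : ℤ) - x)) * φ (x + 1))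

theorem G_add (r : R) (d : ℕ) : ∀ φ ψ : ℤ → R, G r d (fun x => φ x + ψ x) = G r d φ + G r d ψ := by
  induction d with
  | zero => intro φ ψ; simp [G]
  | succ d ih =>
    intro φ ψ
    simp only [G, mul_add, ih]
    ring

theorem G_mul (r : R) (d : ℕ) : ∀ (c : R) (φ : ℤ → R), G r d (fun x => c * φ x) = c * G r d φ := by
  induction d with
  | zero => intro c φ; simp [G]
  | succ d ih =>
    intro c φ
    have h : (fun x : ℤ => r ^ (12 * ((d : ℤ) - x)) * (c * φ (x + 1)))
        = fun x : ℤ => c * (r ^ (12 * ((d : ℤ) - x)) * φ (x + 1)) := by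
      funext x; ring
    simp only [G, h, ih]
    ring

/-- the dual recursion -/
theorem G_succ' (r : R) (hr : r ≠ 0) (d : ℕ) : ∀ φ : ℤ → R,
    G r (d + 1) φ = G r d (fun x => φ (x + 1) + r ^ (12 * x) * φ x) := by
  induction d with
  | zero => intro φ; simp [G]; ring
  | succ d ih =>
    intro φ
    rw [G, ih φ, ih (fun x => r ^ (12 * (((d + 1 : ℕ) : ℤ) - x)) * φ (x + 1)), G]
    congr 1
    congr 1
    funext x
    have e1 : r ^ (12 * (((d + 1 : ℕ) : ℤ) - (x + 1))) = r ^ (12 * ((d : ℤ) - x)) := by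
      congr 1; push_cast; ring
    have e2 : r ^ (12 * x) * r ^ (12 * (((d + 1 : ℕ) : ℤ) - x))
        = r ^ (12 * ((d : ℤ) - x)) * r ^ (12 * (x + 1)) := by
      rw [← zpow_add₀ hr, ← zpow_add₀ hr]; congr 1; push_cast; ring
    rw [e1, ← mul_assoc, e2]; ring

/-- symmetry of Gaussian binomials -/
theorem G_symm (r : R) (hr : r ≠ 0) (d : ℕ) : ∀ φ : ℤ → R,
    G r d φ = G r d (fun x => φ ((d : ℤ) - x)) := by
  induction d with
  | zero => intro φ; simp [G]
  | succ d ih =>
    intro φ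
    rw [G_succ' r hr d (fun x => φ (((d + 1 : ℕ) : ℤ) - x)),
      ih (fun x => φ (((d + 1 : ℕ) : ℤ) - (x + 1)) + r ^ (12 * x) * φ (((d + 1 : ℕ) : ℤ) - x)), G,
      ← G_add]
    congr 1
    funext x
    have e1 : ((d + 1 : ℕ) : ℤ) - ((d : ℤ) - x + 1) = x := by push_cast; ring
    have e2 : ((d + 1 : ℕ) : ℤ) - ((d : ℤ) - x) = x + 1 := by push_cast; ring
    rw [e1, e2]

/-- the (normalised) Moebius weight `(-1)^k q^(k(k-1)/2)` -/
def M (r : R) (k : ℤ) : R := (-1) ^ k * r ^ (6 * k * (k - 1))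

theorem G_M (r : R) (hr : r ≠ 0) (d : ℕ) : G r (d + 1) (M r) = 0 := by
  rw [G_succ' r hr]
  have : (fun x : ℤ => M r (x + 1) + r ^ (12 * x) * M r x) = fun x => (0 : R) * 0 := by
    funext x
    unfold M
    have h1 : ((-1 : R)) ^ (x + 1) = - (-1) ^ x := by
      rw [zpow_add₀ (by norm_num : (-1 : R) ≠ 0)]; simp
    have h2 : r ^ (12 * x) * ((-1) ^ x * r ^ (6 * x * (x - 1)))
        = (-1) ^ x * r ^ (6 * (x + 1) * (x + 1 - 1)) := by
      have : r ^ (6 * (x + 1) * (x + 1 - 1)) = r ^ (12 * x) * r ^ (6 * x * (x - 1)) := by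
        rw [← zpow_add₀ hr]; congr 1; ring
      rw [this]; ring
    rw [h1, h2]; ring
  rw [this, G_mul]; simp

/-- the character mod 3 -/
def chi (k : ℤ) : ℤ := if k % 3 = 0 then 0 else if k % 3 = 1 then 1 else -1

theorem chi_neg (k : ℤ) : chi (-k) = - chi k := by
  unfold chi
  have h : k % 3 = 0 ∨ k % 3 = 1 ∨ k % 3 = 2 := by omega
  rcases h with h | h | h
  · have : (-k) % 3 = 0 := by omega
    simp [h, this]
  · have : (-k) % 3 = 2 := by omega
    simp [h, this]
  · have : (-k) % 3 = 1 := by omega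
    simp [h, this]

theorem chi_add_three (k : ℤ) : chi (k + 3) = chi k := by
  unfold chi
  have : (k + 3) % 3 = k % 3 := by omega
  rw [this]

/-- odd quasi-periodic theta weight -/
def th (r : R) (k : ℤ) : R := (chi k : R) * r ^ (k ^ 2)

theorem th_neg (r : R) (k : ℤ) : th r (-k) = - th r k := by
  unfold th; rw [chi_neg]; push_cast; ring_nf

theorem th_shift (r : R) (hr : r ≠ 0) (k : ℤ) : th r (k + 3) = r ^ (6 * k + 9) * th r k := by
  unfold th; rw [chi_add_three]
  have : r ^ ((k + 3) ^ 2) = r ^ (6 * k + 9) * r ^ (k ^ 2) := by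
    rw [← zpow_add₀ hr]; congr 1; ring
  rw [this]; ring

/-- finite pentagonal identity -/
theorem G_th (r : R) (hr : r ≠ 0) (h2 : (2 : R) ≠ 0) (d : ℕ) :
    G r d (fun x => th r (2 * x + 1 - d)) = (-1) ^ d * r ^ (3 * (d : ℤ) ^ 2 + 1) := by
  induction d with
  | zero => simp [G, th, chi]
  | succ d ih =>
    rw [G]
    -- first summand vanishes
    have z1 : G r d (fun x => th r (2 * x + 1 - ((d + 1 : ℕ) : ℤ))) = 0 := by
      have h := G_symm r hr d (fun x => th r (2 * x + 1 - ((d + 1 : ℕ) : ℤ)))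
      have h' : (fun x : ℤ => th r (2 * ((d : ℤ) - x) + 1 - ((d + 1 : ℕ) : ℤ)))
          = fun x : ℤ => (-1 : R) * th r (2 * x + 1 - ((d + 1 : ℕ) : ℤ)) := by
        funext x
        have : 2 * ((d : ℤ) - x) + 1 - ((d + 1 : ℕ) : ℤ) = - (2 * x + 1 - ((d + 1 : ℕ) : ℤ)) := by
          push_cast; ring
        rw [this, th_neg]; ring
      simp only [h', G_mul] at h
      have h3 : (2 : R) * G r d (fun x => th r (2 * x + 1 - ((d + 1 : ℕ) : ℤ))) = 0 := by
        linear_combination h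
      exact (mul_eq_zero.mp h3).resolve_left h2
    have z2 : (fun x : ℤ => r ^ (12 * ((d : ℤ) - x)) * th r (2 * (x + 1) + 1 - ((d + 1 : ℕ) : ℤ)))
        = fun x : ℤ => r ^ (6 * (d : ℤ) + 3) * th r (2 * x - 1 - d) := by
      funext x
      have : 2 * (x + 1) + 1 - ((d + 1 : ℕ) : ℤ) = (2 * x - 1 - d) + 3 := by push_cast; ring
      rw [this, th_shift r hr, ← mul_assoc, ← zpow_add₀ hr]
      congr 2; ring
    have z3 : G r d (fun x => th r (2 * x - 1 - d)) = - G r d (fun x => th r (2 * x + 1 - d)) := by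
      rw [G_symm r hr d]
      have : (fun x : ℤ => th r (2 * ((d : ℤ) - x) - 1 - d)) = fun x : ℤ => (-1 : R) * th r (2 * x + 1 - d) := by
        funext x
        have : 2 * ((d : ℤ) - x) - 1 - (d : ℤ) = - (2 * x + 1 - d) := by ring
        rw [this, th_neg]; ring
      rw [this, G_mul]; ring
    rw [z1, z2, G_mul, z3, ih]
    have e : r ^ (3 * (((d + 1 : ℕ) : ℤ)) ^ 2 + 1) = r ^ (6 * (d : ℤ) + 3) * r ^ (3 * (d : ℤ) ^ 2 + 1) := by
      rw [← zpow_add₀ hr]; congr 1; push_cast; ring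
    rw [e, pow_succ]; ring

end Pool.Agent.Helper30.Split
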