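import Mathlib
import Pool.Agent.Helper30.SplitAlg

/-!
Counting subspaces of a finite vector space.
-/

open Module

namespace Pool.Agent.Helper30.Split

section count

variable {F : Type*} [Field F]

/-- number of complements of a subspace -/
theorem card_compl {E : Type*} [AddCommGroup E] [Module F E] [Finite E] (K : Submodule F E) :
    Nat.card {C : Submodule F E // IsCompl K C} = Nat.card F ^ (finrank F (E ⧸ K) * finrank F K) := by
  classical
  obtain ⟨C0, hC0⟩ := K.exists_isCompl
  rw [Nat.card_congr (K.isComplEquivProj)]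
  obtain ⟨f0, hf0⟩ := K.isComplEquivProj ⟨C0, hC0⟩
  have e : {f : E →ₗ[F] K // ∀ x : K, f x = x} ≃ ((E ⧸ K) →ₗ[F] K) :=
   { toFun := fun f => K.liftQ (f.1 - f0) (by
        intro x hx
        rw [LinearMap.mem_ker, LinearMap.sub_apply]
        have h1 := f.2 ⟨x, hx⟩
        have h2 := hf0 ⟨x, hx⟩
        simp only at h1 h2
        rw [h1, h2, sub_self])
     invFun := fun g => ⟨g.comp K.mkQ + f0, by
        intro x
        rw [LinearMap.add_apply, LinearMap.comp_apply, hf0 x]
        have : K.mkQ (x : E) = 0 := (Submodule.Quotient.mk_eq_zero K).2 x.2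
        rw [this, map_zero, zero_add]⟩
     left_inv := by
        intro f
        ext x
        simp
     right_inv := by
        intro g
        ext x
        simp }
  rw [Nat.card_congr e, natCard_eq_pow_finrank (K := F), finrank_linearMap]

variable {V : Type*} [AddCommGroup V] [Module F V] [Finite V]

/-- number of `U` with `U ⊓ K = X` and `U ⊔ K = Z` -/
theorem card_rel_compl (X K Z : Submodule F V) (hXK : X ≤ K) (hKZ : K ≤ Z) :
    Nat.card {U : Submodule F V // U ⊓ K = X ∧ U ⊔ K = Z} =
      Nat.card F ^ ((finrank F Z - finrank F K) * (finrank F K - finrank F X)) := by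
  classical
  set X' : Submodule F Z := X.comap Z.subtype with hX'
  set K1 : Submodule F Z := K.comap Z.subtype with hK1
  set K' : Submodule F (Z ⧸ X') := K1.map X'.mkQ with hK'
  have hXZ : X ≤ Z := hXK.trans hKZ
  have hinj : Function.Injective Z.subtype := Z.injective_subtype
  have hX'K1 : X' ≤ K1 := Submodule.comap_mono hXK
  have hmapX : X'.map Z.subtype = X := by
    rw [hX', Submodule.map_comap_subtype, inf_eq_right.2 hXZ]
  have hmapK : K1.map Z.subtype = K := by
    rw [hK1, Submodule.map_comap_subtype, inf_eq_right.2 hKZ]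
  have hcK' : K'.comap X'.mkQ = K1 := by
    rw [hK', Submodule.comap_map_mkQ, sup_eq_right.2 hX'K1]
  have e : {C : Submodule F (Z ⧸ X') // IsCompl K' C} ≃ {U : Submodule F V // U ⊓ K = X ∧ U ⊔ K = Z} :=
   { toFun := fun C => ⟨(C.1.comap X'.mkQ).map Z.subtype, by
        have h := C.2
        constructor
        · have h1 : (K' ⊓ C.1).comap X'.mkQ = X' := by
            rw [h.inf_eq_bot, Submodule.comap_bot, Submodule.ker_mkQ]
          rw [Submodule.comap_inf, hcK'] at h1
          have h2 := congrArg (Submodule.map Z.subtype) h1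
          rw [Submodule.map_inf _ hinj, hmapX, hmapK] at h2
          rw [inf_comm, h2]
        · have h1 : ((K1 ⊔ C.1.comap X'.mkQ).map X'.mkQ) = ⊤ := by
            rw [Submodule.map_sup, Submodule.map_comap_eq_of_surjective (Submodule.mkQ_surjective X'), ← hK',
              h.sup_eq_top]
          have h2 := congrArg (Submodule.comap X'.mkQ) h1
          rw [Submodule.comap_map_mkQ, Submodule.comap_top, ← sup_assoc, sup_eq_right.2 hX'K1] at h2
          have h3 := congrArg (Submodule.map Z.subtype) h2
          rw [Submodule.map_sup, hmapK, Submodule.map_top, Submodule.range_subtype] at h3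
          rw [sup_comm, h3]⟩
     invFun := fun U => ⟨(U.1.comap Z.subtype).map X'.mkQ, by
        have hXU : X' ≤ U.1.comap Z.subtype := Submodule.comap_mono (U.2.1.ge.trans inf_le_left)
        have hcU : ((U.1.comap Z.subtype).map X'.mkQ).comap X'.mkQ = U.1.comap Z.subtype := by
          rw [Submodule.comap_map_mkQ, sup_eq_right.2 hXU]
        constructor
        · rw [disjoint_iff]
          apply Submodule.comap_injective_of_surjective (Submodule.mkQ_surjective X')
          rw [Submodule.comap_inf, hcK', hcU, Submodule.comap_bot, Submodule.ker_mkQ, hK1, ← Submodule.comap_inf,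
            inf_comm, U.2.1]
        · rw [codisjoint_iff, hK', ← Submodule.map_sup]
          have hUZ : U.1 ≤ Z := le_sup_left.trans U.2.2.le
          have : K1 ⊔ U.1.comap Z.subtype = ⊤ := by
            apply Submodule.map_injective_of_injective hinj
            rw [Submodule.map_sup, hmapK, Submodule.map_comap_subtype, inf_eq_right.2 hUZ, Submodule.map_top,
              Submodule.range_subtype, sup_comm, U.2.2]
          rw [this, Submodule.map_top, Submodule.range_mkQ]⟩
     left_inv := by
        intro C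
        apply Subtype.ext
        simp only
        rw [Submodule.comap_map_eq_of_injective hinj,
          Submodule.map_comap_eq_of_surjective (Submodule.mkQ_surjective X')]
     right_inv := by
        intro U
        apply Subtype.ext
        have hXU : X' ≤ U.1.comap Z.subtype := Submodule.comap_mono (U.2.1.ge.trans inf_le_left)
        have hUZ : U.1 ≤ Z := le_sup_left.trans U.2.2.le
        simp only
        rw [Submodule.comap_map_mkQ, sup_eq_right.2 hXU, Submodule.map_comap_subtype, inf_eq_right.2 hUZ] }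
  have : Finite (Z ⧸ X') := Finite.of_surjective _ (Submodule.mkQ_surjective X')
  rw [← Nat.card_congr e, card_compl]
  have f1 : finrank F X' = finrank F X := by
    rw [← Submodule.finrank_map_subtype_eq Z X', hmapX]
  have f2 : finrank F K1 = finrank F K := by
    rw [← Submodule.finrank_map_subtype_eq Z K1, hmapK]
  have f3 : finrank F K' = finrank F K - finrank F X := by
    -- K' is the range of mkQ ∘ K1.subtype
    have hk := LinearMap.finrank_range_add_finrank_ker (X'.mkQ.comp K1.subtype)
    rw [LinearMap.range_comp, Submodule.range_subtype, LinearMap.ker_comp, Submodule.ker_mkQ] at hk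
    have h4 : finrank F (X'.comap K1.subtype) = finrank F X' := by
      rw [← Submodule.finrank_map_subtype_eq K1, Submodule.map_comap_subtype, inf_eq_right.2 hX'K1]
    rw [h4, f1, f2] at hk
    rw [hK']; omega
  have f4 : finrank F ((Z ⧸ X') ⧸ K') = finrank F Z - finrank F K := by
    rw [Submodule.finrank_quotient, Submodule.finrank_quotient, f3, f1]
    have := Submodule.finrank_mono hXK
    have := Submodule.finrank_mono hKZ
    omega
  rw [f3, f4]

end count

section sums

open Classical in
noncomputable local instance fintypeSubmodule {F V : Type*} [Field F] [AddCommGroup V] [Module F V] [Finite V] :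
    Fintype (Submodule F V) := Fintype.ofFinite _

open Classical

variable {F : Type*} [Field F] {V : Type*} [AddCommGroup V] [Module F V] [Finite V]
variable {R : Type*} [Field R]

/-- dimension as an integer -/
noncomputable abbrev dm (U : Submodule F V) : ℤ := (finrank F U : ℤ)

theorem sum_sup (r : R) (hr : r ≠ 0) (hq : r ^ 12 = (Nat.card F : R)) (P K Z : Submodule F V)
    (hPK : P ≤ K) (hKZ : K ≤ Z) (φ : ℤ → R) :
    ∑ U : Submodule F V with P ≤ U ∧ U ⊔ K = Z, φ (dm U) * r ^ (12 * (dm Z - dm K) * dm U) =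
      r ^ (12 * (dm Z - dm K) * dm Z) *
        ∑ X : Submodule F V with P ≤ X ∧ X ≤ K, φ (dm X + (dm Z - dm K)) := by
  rw [← Finset.sum_fiberwise_of_maps_to (s := Finset.univ.filter fun U : Submodule F V => P ≤ U ∧ U ⊔ K = Z)
    (t := Finset.univ.filter fun X : Submodule F V => P ≤ X ∧ X ≤ K) (g := fun U => U ⊓ K), Finset.mul_sum]
  · apply Finset.sum_congr rfl
    intro X hX
    simp only [Finset.mem_filter, Finset.mem_univ, true_and] at hX
    obtain ⟨hPX, hXK⟩ := hX
    have hconst : ∀ U ∈ (Finset.univ.filter fun U : Submodule F V => P ≤ U ∧ U ⊔ K = Z).filter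
        (fun U => U ⊓ K = X), φ (dm U) * r ^ (12 * (dm Z - dm K) * dm U) =
          φ (dm X + (dm Z - dm K)) * r ^ (12 * (dm Z - dm K) * (dm X + (dm Z - dm K))) := by
      intro U hU
      simp only [Finset.mem_filter, Finset.mem_univ, true_and] at hU
      obtain ⟨⟨_, hUK⟩, hUX⟩ := hU
      have h := Submodule.finrank_sup_add_finrank_inf_eq U K
      rw [hUK, hUX] at h
      have : dm U = dm X + (dm Z - dm K) := by unfold dm; omega
      rw [this]
    rw [Finset.sum_congr rfl hconst, Finset.sum_const, nsmul_eq_mul]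
    have hcard : (((Finset.univ.filter fun U : Submodule F V => P ≤ U ∧ U ⊔ K = Z).filter
        (fun U => U ⊓ K = X)).card : R) = r ^ (12 * (dm Z - dm K) * (dm K - dm X)) := by
      have h1 : ((Finset.univ.filter fun U : Submodule F V => P ≤ U ∧ U ⊔ K = Z).filter
        (fun U => U ⊓ K = X)).card = Nat.card {U : Submodule F V // U ⊓ K = X ∧ U ⊔ K = Z} := by
        rw [Nat.card_eq_fintype_card, Fintype.card_subtype, Finset.filter_filter]
        congr 1
        ext U
        simp only [Finset.mem_filter, Finset.mem_univ, true_and]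
        constructor
        · rintro ⟨⟨_, h2⟩, h3⟩; exact ⟨h3, h2⟩
        · rintro ⟨h3, h2⟩; exact ⟨⟨hPX.trans (h3.ge.trans inf_le_left), h2⟩, h3⟩
      rw [h1, card_rel_compl X K Z hXK hKZ]
      push_cast
      rw [← hq, ← pow_mul]
      have a1 := Submodule.finrank_mono hXK
      have a2 := Submodule.finrank_mono hKZ
      rw [← zpow_natCast]
      congr 1
      push_cast [Nat.cast_sub a1, Nat.cast_sub a2]
      ring
    rw [hcard]
    have : r ^ (12 * (dm Z - dm K) * dm Z) = r ^ (12 * (dm Z - dm K) * (dm K - dm X)) *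
        r ^ (12 * (dm Z - dm K) * (dm X + (dm Z - dm K))) := by
      rw [← zpow_add₀ hr]; congr 1; ring
    rw [this]; ring
  · intro U hU
    simp only [Finset.mem_filter, Finset.mem_univ, true_and] at hU ⊢
    exact ⟨le_inf hU.1 hPK, inf_le_right⟩

/-- a hyperplane of `E` containing `P` -/
theorem exists_hyperplane (P E : Submodule F V) (h : P ≤ E) (hlt : finrank F P < finrank F E) :
    ∃ H : Submodule F V, P ≤ H ∧ H ≤ E ∧ finrank F H + 1 = finrank F E := by
  obtain ⟨H, hH, hmax⟩ := Finset.exists_max_image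
    (Finset.univ.filter fun H : Submodule F V => P ≤ H ∧ H ≤ E ∧ finrank F H < finrank F E)
    (fun H => finrank F H) ⟨P, by simp [h, hlt]⟩
  simp only [Finset.mem_filter, Finset.mem_univ, true_and] at hH hmax
  refine ⟨H, hH.1, hH.2.1, ?_⟩
  by_contra hne
  have hlt2 : finrank F H + 1 < finrank F E := by omega
  have hHE : H < E := lt_of_le_of_ne hH.2.1 (by rintro rfl; omega)
  obtain ⟨v, hvE, hvH⟩ := SetLike.exists_of_lt hHE
  have hle : finrank F (H ⊔ Submodule.span F {v} : Submodule F V) ≤ finrank F H + 1 := by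
    have h1 := Submodule.finrank_add_le_finrank_add_finrank H (Submodule.span F {v})
    have h2 : finrank F (Submodule.span F {v}) ≤ 1 := (finrank_span_le_card ({v} : Set V)).trans (by simp)
    omega
  have hgt : finrank F H < finrank F (H ⊔ Submodule.span F {v} : Submodule F V) := by
    apply Submodule.finrank_lt_finrank_of_lt
    refine lt_of_le_of_ne le_sup_left ?_
    intro he
    exact hvH (he ▸ (Submodule.mem_sup_right (Submodule.mem_span_singleton_self v)))
  have := hmax (H ⊔ Submodule.span F {v}) ⟨hH.1.trans le_sup_left,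
    sup_le hH.2.1 ((Submodule.span_singleton_le_iff_mem v E).2 hvE), by omega⟩
  omega

theorem sum_Icc (r : R) (hr : r ≠ 0) (hq : r ^ 12 = (Nat.card F : R)) (P : Submodule F V) (d : ℕ) :
    ∀ (E : Submodule F V) (_ : P ≤ E) (_ : finrank F E = finrank F P + d) (φ : ℤ → R),
    ∑ X : Submodule F V with P ≤ X ∧ X ≤ E, φ (dm X) = G r d (fun x => φ (x + dm P)) := by
  induction d with
  | zero =>
    intro E hPE hd φ
    have hE : P = E := Submodule.eq_of_le_of_finrank_eq hPE (by omega)
    subst hE
    have : (Finset.univ.filter fun X : Submodule F V => P ≤ X ∧ X ≤ P) = {P} := by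
      ext X
      simp only [Finset.mem_filter, Finset.mem_univ, true_and, Finset.mem_singleton]
      constructor
      · rintro ⟨h1, h2⟩; exact le_antisymm h2 h1
      · rintro rfl; exact ⟨le_rfl, le_rfl⟩
    rw [this]; simp [G]
  | succ d ih =>
    intro E hPE hd φ
    obtain ⟨H, hPH, hHE, hH⟩ := exists_hyperplane P E hPE (by omega)
    have hsplit : ∑ X : Submodule F V with P ≤ X ∧ X ≤ E, φ (dm X) =
        ∑ X : Submodule F V with P ≤ X ∧ X ≤ H, φ (dm X) +
        ∑ X : Submodule F V with P ≤ X ∧ X ⊔ H = E, φ (dm X) := by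
      rw [← Finset.sum_filter_add_sum_filter_not (Finset.univ.filter fun X : Submodule F V => P ≤ X ∧ X ≤ E)
        (fun X => X ≤ H)]
      congr 1
      · apply Finset.sum_congr _ (fun _ _ => rfl)
        ext X
        simp only [Finset.mem_filter, Finset.mem_univ, true_and]
        constructor
        · rintro ⟨⟨h1, _⟩, h3⟩; exact ⟨h1, h3⟩
        · rintro ⟨h1, h3⟩; exact ⟨⟨h1, h3.trans hHE⟩, h3⟩
      · apply Finset.sum_congr _ (fun _ _ => rfl)
        ext X
        simp only [Finset.mem_filter, Finset.mem_univ, true_and]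
        constructor
        · rintro ⟨⟨h1, h2⟩, h3⟩
          refine ⟨h1, ?_⟩
          apply Submodule.eq_of_le_of_finrank_le (sup_le h2 hHE)
          have : finrank F H < finrank F (X ⊔ H : Submodule F V) := by
            apply Submodule.finrank_lt_finrank_of_lt
            refine lt_of_le_of_ne le_sup_right ?_
            intro he
            exact h3 (le_sup_left.trans he.ge)
          omega
        · rintro ⟨h1, h3⟩
          refine ⟨⟨h1, le_sup_left.trans h3.le⟩, ?_⟩
          intro h4
          rw [sup_eq_right.2 h4] at h3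
          subst h3
          omega
    rw [hsplit, G]
    have hHd : finrank F H = finrank F P + d := by omega
    rw [ih H hPH hHd φ]
    congr 1
    have key := sum_sup r hr hq P H E hPH hHE (fun u => φ u * r ^ (-(12 * u)))
    have hb : dm E - dm H = 1 := by unfold dm; omega
    simp only [hb] at key
    have l1 : ∑ U : Submodule F V with P ≤ U ∧ U ⊔ H = E, φ (dm U) * r ^ (-(12 * dm U)) * r ^ (12 * 1 * dm U)
        = ∑ U : Submodule F V with P ≤ U ∧ U ⊔ H = E, φ (dm U) := by
      apply Finset.sum_congr rfl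
      intro U _
      rw [mul_assoc, ← zpow_add₀ hr]
      have : (-(12 * dm U) + 12 * 1 * dm U) = 0 := by ring
      rw [this, zpow_zero, mul_one]
    rw [l1] at key
    rw [key, ih H hPH hHd (fun x => φ (x + 1) * r ^ (-(12 * (x + 1)))), ← G_mul]
    congr 1
    funext x
    have : r ^ (12 * ((d : ℤ) - x)) = r ^ (12 * 1 * dm E) * r ^ (-(12 * (x + dm P + 1))) := by
      rw [← zpow_add₀ hr]; congr 1; unfold dm; rw [hd]; push_cast; ring
    rw [this]
    have h2 : x + dm P + 1 = x + 1 + dm P := by ring
    rw [h2]; ring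

theorem M_zero (r : R) : M r 0 = 1 := by simp [M]

theorem M_add (r : R) (hr : r ≠ 0) (a b : ℤ) : M r (a + b) = M r a * M r b * r ^ (12 * a * b) := by
  unfold M
  rw [zpow_add₀ (by norm_num : (-1 : R) ≠ 0)]
  have : r ^ (6 * (a + b) * (a + b - 1)) = r ^ (6 * a * (a - 1)) * r ^ (6 * b * (b - 1)) * r ^ (12 * a * b) := by
    rw [← zpow_add₀ hr, ← zpow_add₀ hr]; congr 1; ring
  rw [this]; ring

theorem M_ne (r : R) (hr : r ≠ 0) (a : ℤ) : M r a ≠ 0 := by
  unfold M
  exact mul_ne_zero (zpow_ne_zero _ (by norm_num)) (zpow_ne_zero _ hr)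

/-- Weisner's theorem for an interval of subspaces -/
theorem weisner (r : R) (hr : r ≠ 0) (hq : r ^ 12 = (Nat.card F : R)) (P K Y : Submodule F V)
    (hPY : P ≤ Y) (hKY : K ≤ Y) :
    ∑ Z : Submodule F V with P ≤ Z ∧ Z ⊔ K = Y, M r (dm Z - dm P) =
      if K ≤ P then M r (dm Y - dm P) else 0 := by
  set K' := K ⊔ P with hK'
  have hPK' : P ≤ K' := le_sup_right
  have hK'Y : K' ≤ Y := sup_le hKY hPY
  have hset : (Finset.univ.filter fun Z : Submodule F V => P ≤ Z ∧ Z ⊔ K = Y) =
      Finset.univ.filter fun Z : Submodule F V => P ≤ Z ∧ Z ⊔ K' = Y := by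
    ext Z
    simp only [Finset.mem_filter, Finset.mem_univ, true_and]
    constructor
    · rintro ⟨h1, h2⟩
      refine ⟨h1, ?_⟩
      rw [hK', ← sup_assoc, h2, sup_eq_left.2 hPY]
    · rintro ⟨h1, h2⟩
      refine ⟨h1, ?_⟩
      rw [hK', sup_comm K P, ← sup_assoc, sup_eq_left.2 h1] at h2
      exact h2
  rw [hset]
  have key := sum_sup r hr hq P K' Y hPK' hK'Y
    (fun u => M r (u - dm P) * r ^ (-(12 * (dm Y - dm K') * u)))
  have l1 : ∑ U : Submodule F V with P ≤ U ∧ U ⊔ K' = Y,
      M r (dm U - dm P) * r ^ (-(12 * (dm Y - dm K') * dm U)) * r ^ (12 * (dm Y - dm K') * dm U)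
        = ∑ U : Submodule F V with P ≤ U ∧ U ⊔ K' = Y, M r (dm U - dm P) := by
    apply Finset.sum_congr rfl
    intro U _
    rw [mul_assoc, ← zpow_add₀ hr, neg_add_cancel, zpow_zero, mul_one]
  rw [l1] at key
  rw [key]
  obtain ⟨d, hd⟩ := Nat.exists_eq_add_of_le (Submodule.finrank_mono hPK' : finrank F P ≤ finrank F K')
  rw [sum_Icc r hr hq P d K' hPK' hd
    (fun x => M r (x + (dm Y - dm K') - dm P) * r ^ (-(12 * (dm Y - dm K') * (x + (dm Y - dm K')))))]
  have hfun : (fun x : ℤ => M r (x + dm P + (dm Y - dm K') - dm P) *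
      r ^ (-(12 * (dm Y - dm K') * (x + dm P + (dm Y - dm K'))))) =
      fun x : ℤ => (M r (dm Y - dm K') * r ^ (-(12 * (dm Y - dm K') * (dm P + (dm Y - dm K'))))) * M r x := by
    funext x
    have h1 : x + dm P + (dm Y - dm K') - dm P = x + (dm Y - dm K') := by ring
    rw [h1, M_add r hr]
    have h2 : r ^ (-(12 * (dm Y - dm K') * (x + dm P + (dm Y - dm K')))) * r ^ (12 * x * (dm Y - dm K'))
        = r ^ (-(12 * (dm Y - dm K') * (dm P + (dm Y - dm K')))) := by
      rw [← zpow_add₀ hr]; congr 1; ring
    rw [← h2]; ring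
  rw [hfun, G_mul]
  split_ifs with hKP
  · have hKP' : K' = P := by rw [hK', sup_eq_right.2 hKP]
    have hd0 : d = 0 := by rw [hKP'] at hd; omega
    subst hd0
    rw [hKP']
    simp only [G, M_zero, mul_one]
    rw [mul_comm (M r _), ← mul_assoc, ← zpow_add₀ hr]
    have : 12 * (dm Y - dm P) * dm Y + -(12 * (dm Y - dm P) * (dm P + (dm Y - dm P))) = 0 := by ring
    rw [this, zpow_zero, one_mul]
  · have hd0 : d ≠ 0 := by
      rintro rfl
      apply hKP
      have : P = K' := Submodule.eq_of_le_of_finrank_eq hPK' (by omega)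
      rw [this]; exact le_sup_left
    obtain ⟨e, rfl⟩ := Nat.exists_eq_succ_of_ne_zero hd0
    rw [Nat.succ_eq_add_one, G_M r hr]; simp

/-- weights for the indicator expansion -/
def N (r : R) (c k : ℤ) : R := (-1) ^ c * r ^ (6 * (c ^ 2 + c - 2 * c * k))

theorem N_eq (r : R) (hr : r ≠ 0) (c k : ℤ) : N r c k = (M r k)⁻¹ * M r (k - c) := by
  have h := M_ne r hr k
  rw [eq_inv_mul_iff_mul_eq₀ h]
  unfold M N
  have h1 : ((-1 : R)) ^ (k - c) = (-1) ^ k * (-1) ^ c := by
    rw [zpow_sub₀ (by norm_num : (-1 : R) ≠ 0)]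
    have : ((-1 : R) ^ c)⁻¹ = (-1) ^ c := by
      rw [← inv_zpow]; norm_num
    rw [div_eq_mul_inv, this]
  have h2 : r ^ (6 * (k - c) * (k - c - 1)) = r ^ (6 * k * (k - 1)) * r ^ (6 * (c ^ 2 + c - 2 * c * k)) := by
    rw [← zpow_add₀ hr]; congr 1; ring
  rw [h1, h2]; ring

/-- indicator expansion -/
theorem indicator_expand (r : R) (hr : r ≠ 0) (hq : r ^ 12 = (Nat.card F : R)) (P K Y : Submodule F V)
    (hPY : P ≤ Y) (hKY : K ≤ Y) :
    ∑ Z : Submodule F V with P ≤ Z ∧ Z ⊔ K = Y, N r (dm Y - dm Z) (dm Y - dm P) =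
      if K ≤ P then 1 else 0 := by
  have h := weisner r hr hq P K Y hPY hKY
  have : ∑ Z : Submodule F V with P ≤ Z ∧ Z ⊔ K = Y, N r (dm Y - dm Z) (dm Y - dm P) =
      (M r (dm Y - dm P))⁻¹ * ∑ Z : Submodule F V with P ≤ Z ∧ Z ⊔ K = Y, M r (dm Z - dm P) := by
    rw [Finset.mul_sum]
    apply Finset.sum_congr rfl
    intro Z _
    rw [N_eq r hr]
    congr 2; ring
  rw [this, h]
  split_ifs
  · exact inv_mul_cancel₀ (M_ne r hr _)
  · simp

end sums

end Pool.Agent.Helper30.Split
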