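import Mathlib
import Pool.Agent.Helper30.SplitGeom

/-!
Sums over invariant subspaces.
-/

open Module

namespace Pool.Agent.Helper30.Split

open Classical

attribute [local instance] fintypeSubmodule

variable {F : Type*} [Field F] {V : Type*} [AddCommGroup V] [Module F V]

theorem finrank_map_mkQ [Finite V] (Z A : Submodule F V) (h : Z ≤ A) :
    finrank F (A.map Z.mkQ) + finrank F Z = finrank F A := by
  have hk := LinearMap.finrank_range_add_finrank_ker (Z.mkQ.comp A.subtype)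
  rw [LinearMap.range_comp, Submodule.range_subtype, LinearMap.ker_comp, Submodule.ker_mkQ] at hk
  have h4 : finrank F (Z.comap A.subtype) = finrank F Z := by
    rw [← Submodule.finrank_map_subtype_eq A, Submodule.map_comap_subtype, inf_eq_right.2 h]
  rw [h4] at hk
  exact hk

theorem finrank_sup_map_add [Finite V] (T : V →ₗ[F] V) (Z : Submodule F V) :
    finrank F (Z ⊔ Z.map T : Submodule F V) + finrank F (Z ⊓ Z.comap T : Submodule F V) =
      2 * finrank F Z := by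
  have hk := LinearMap.finrank_range_add_finrank_ker (Z.mkQ.comp (T.comp Z.subtype))
  rw [LinearMap.range_comp, LinearMap.range_comp, Submodule.range_subtype, LinearMap.ker_comp,
    Submodule.ker_mkQ, Submodule.comap_comp] at hk
  have h4 : finrank F ((Z.comap T).comap Z.subtype) = finrank F (Z ⊓ Z.comap T : Submodule F V) := by
    rw [← Submodule.finrank_map_subtype_eq Z, Submodule.map_comap_subtype]
  have h5 : (Z.map T).map Z.mkQ = (Z ⊔ Z.map T).map Z.mkQ := by
    rw [Submodule.map_sup]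
    rw [Submodule.mkQ_map_self, bot_sup_eq]
  have h6 := finrank_map_mkQ Z (Z ⊔ Z.map T) le_sup_left
  rw [h4, h5] at hk
  omega

theorem sup_map_eq_iff (T : V →ₗ[F] V) (U Z Y : Submodule F V) (hUZ : U ≤ Z) (hZ : Z ⊔ Z.map T = Y) :
    Z ⊔ U.map T = Y ↔ U ⊔ (Z ⊓ Z.comap T) = Z := by
  constructor
  · intro h
    apply le_antisymm (sup_le hUZ inf_le_left)
    intro z hz
    have h1 : T z ∈ Z ⊔ U.map T := by
      rw [h, ← hZ]
      exact Submodule.mem_sup_right (Submodule.mem_map_of_mem hz)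
    obtain ⟨z', hz', w, hw, hzw⟩ := Submodule.mem_sup.1 h1
    obtain ⟨u, hu, rfl⟩ := Submodule.mem_map.1 hw
    have h2 : z - u ∈ Z ⊓ Z.comap T := by
      refine ⟨Z.sub_mem hz (hUZ hu), ?_⟩
      rw [SetLike.mem_coe, Submodule.mem_comap, map_sub, ← hzw]
      simpa using hz'
    have : z = u + (z - u) := by abel
    rw [this]
    exact Submodule.add_mem_sup hu h2
  · intro h
    rw [← hZ]
    apply le_antisymm (sup_le_sup_left (Submodule.map_mono hUZ) _)
    apply sup_le le_sup_left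
    rintro _ ⟨z, hz, rfl⟩
    rw [SetLike.mem_coe, ← h] at hz
    obtain ⟨u, hu, x, hx, rfl⟩ := Submodule.mem_sup.1 hz
    rw [map_add]
    exact Submodule.add_mem _ (Submodule.mem_sup_right (Submodule.mem_map_of_mem hu))
      (Submodule.mem_sup_left hx.2)

variable [Finite V] {R : Type*} [Field R]

theorem sum_invariant (r : R) (hr : r ≠ 0) (hq : r ^ 12 = (Nat.card F : R)) (T : V →ₗ[F] V)
    (P Y : Submodule F V) (hP : P.map T ≤ P) (hY : Y.map T ≤ Y) (φ : ℤ → R) :
    ∑ U : Submodule F V with P ≤ U ∧ U ≤ Y ∧ U.map T ≤ U, φ (dm U) =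
      ∑ Z : Submodule F V with P ≤ Z ∧ Z ⊔ Z.map T = Y,
        (-1) ^ (dm Y - dm Z) * r ^ (-(6 * (dm Y - dm Z) * (dm Y - dm Z - 1))) *
          ∑ X : Submodule F V with P ≤ X ∧ X ≤ Z ⊓ Z.comap T, φ (dm X + (dm Y - dm Z)) := by
  have step1 : ∑ U : Submodule F V with P ≤ U ∧ U ≤ Y ∧ U.map T ≤ U, φ (dm U) =
      ∑ U : Submodule F V with P ≤ U ∧ U ≤ Y, ∑ Z : Submodule F V with U ≤ Z ∧ Z ⊔ U.map T = Y,
        φ (dm U) * N r (dm Y - dm Z) (dm Y - dm U) := by
    have : (Finset.univ.filter fun U : Submodule F V => P ≤ U ∧ U ≤ Y ∧ U.map T ≤ U) =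
        (Finset.univ.filter fun U : Submodule F V => P ≤ U ∧ U ≤ Y).filter fun U => U.map T ≤ U := by
      rw [Finset.filter_filter]; congr 1; ext U; tauto
    rw [this, Finset.sum_filter]
    apply Finset.sum_congr rfl
    intro U hU
    simp only [Finset.mem_filter, Finset.mem_univ, true_and] at hU
    rw [← Finset.mul_sum, indicator_expand r hr hq U (U.map T) Y hU.2 ((Submodule.map_mono hU.2).trans hY)]
    split_ifs <;> simp
  rw [step1, Finset.sum_comm' (t' := Finset.univ.filter fun Z : Submodule F V => P ≤ Z ∧ Z ⊔ Z.map T = Y)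
    (s' := fun Z => Finset.univ.filter fun U : Submodule F V => P ≤ U ∧ U ⊔ (Z ⊓ Z.comap T) = Z)]
  · apply Finset.sum_congr rfl
    intro Z hZ
    simp only [Finset.mem_filter, Finset.mem_univ, true_and] at hZ
    obtain ⟨hPZ, hZY⟩ := hZ
    have hP1 : P ≤ Z ⊓ Z.comap T := by
      refine le_inf hPZ ?_
      rw [← Submodule.map_le_iff_le_comap]
      exact hP.trans hPZ
    have hdim : dm Z - dm (Z ⊓ Z.comap T) = dm Y - dm Z := by
      have := finrank_sup_map_add T Z
      rw [hZY] at this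
      unfold dm; omega
    have key := sum_sup r hr hq P (Z ⊓ Z.comap T) Z hP1 inf_le_left φ
    rw [hdim] at key
    set c := dm Y - dm Z with hc
    have l1 : ∑ U : Submodule F V with P ≤ U ∧ U ⊔ (Z ⊓ Z.comap T) = Z, φ (dm U) * N r c (dm Y - dm U) =
        ((-1) ^ c * r ^ (6 * (c ^ 2 + c - 2 * c * dm Y))) *
          ∑ U : Submodule F V with P ≤ U ∧ U ⊔ (Z ⊓ Z.comap T) = Z, φ (dm U) * r ^ (12 * c * dm U) := by
      rw [Finset.mul_sum]
      apply Finset.sum_congr rfl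
      intro U _
      unfold N
      have : r ^ (6 * (c ^ 2 + c - 2 * c * (dm Y - dm U))) =
          r ^ (6 * (c ^ 2 + c - 2 * c * dm Y)) * r ^ (12 * c * dm U) := by
        rw [← zpow_add₀ hr]; congr 1; ring
      rw [this]; ring
    rw [l1, key]
    have : r ^ (-(6 * c * (c - 1))) = r ^ (6 * (c ^ 2 + c - 2 * c * dm Y)) * r ^ (12 * c * dm Z) := by
      rw [← zpow_add₀ hr]; congr 1; rw [hc]; ring
    rw [this]; ring
  · intro U Z
    simp only [Finset.mem_filter, Finset.mem_univ, true_and]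
    constructor
    · rintro ⟨⟨hPU, hUY⟩, hUZ, hZU⟩
      have hZY : Z ≤ Y := le_sup_left.trans hZU.le
      have hZ : Z ⊔ Z.map T = Y := by
        apply le_antisymm
        · exact sup_le hZY ((Submodule.map_mono hZY).trans hY)
        · rw [← hZU]; exact sup_le_sup_left (Submodule.map_mono hUZ) _
      exact ⟨⟨hPU, (sup_map_eq_iff T U Z Y hUZ hZ).1 hZU⟩, hPU.trans hUZ, hZ⟩
    · rintro ⟨⟨hPU, hUZ1⟩, hPZ, hZ⟩
      have hUZ : U ≤ Z := le_sup_left.trans hUZ1.le
      have hZY : Z ≤ Y := le_sup_left.trans hZ.le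
      exact ⟨⟨hPU, hUZ.trans hZY⟩, hUZ, (sup_map_eq_iff T U Z Y hUZ hZ).2 hUZ1⟩

theorem sum_invariant_symm (r : R) (hr : r ≠ 0) (hq : r ^ 12 = (Nat.card F : R)) (T : V →ₗ[F] V)
    (P Y : Submodule F V) (hP : P.map T ≤ P) (hY : Y.map T ≤ Y) (φ : ℤ → R) :
    ∑ U : Submodule F V with P ≤ U ∧ U ≤ Y ∧ U.map T ≤ U, φ (dm U) =
      ∑ U : Submodule F V with P ≤ U ∧ U ≤ Y ∧ U.map T ≤ U, φ (dm P + dm Y - dm U) := by
  rw [sum_invariant r hr hq T P Y hP hY φ,
    sum_invariant r hr hq T P Y hP hY (fun u => φ (dm P + dm Y - u))]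
  apply Finset.sum_congr rfl
  intro Z hZ
  simp only [Finset.mem_filter, Finset.mem_univ, true_and] at hZ
  obtain ⟨hPZ, hZY⟩ := hZ
  congr 1
  have hP1 : P ≤ Z ⊓ Z.comap T := by
    refine le_inf hPZ ?_
    rw [← Submodule.map_le_iff_le_comap]
    exact hP.trans hPZ
  have hdim : dm (Z ⊓ Z.comap T) = 2 * dm Z - dm Y := by
    have := finrank_sup_map_add T Z
    rw [hZY] at this
    unfold dm; omega
  obtain ⟨d, hd⟩ := Nat.exists_eq_add_of_le (Submodule.finrank_mono hP1)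
  rw [sum_Icc r hr hq P d _ hP1 hd (fun x => φ (x + (dm Y - dm Z))),
    sum_Icc r hr hq P d _ hP1 hd (fun x => φ (dm P + dm Y - (x + (dm Y - dm Z)))),
    G_symm r hr d]
  congr 1
  funext x
  congr 1
  have : dm (Z ⊓ Z.comap T) = dm P + d := by unfold dm; omega
  rw [this] at hdim
  linarith

/-- the real weight of a flag `U ≤ Y` -/
def wt (r : R) (m : ℤ) (k y : ℤ) : R :=
  (chi (2 * k - y + 1) : R) * r ^ ((2 * k - y + 1) ^ 2 + 3 * (2 * m - y - 1) ^ 2 - 4)

theorem sum_flags (r : R) (hr : r ≠ 0) (h2 : (2 : R) ≠ 0) (hq : r ^ 12 = (Nat.card F : R))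
    (T : V →ₗ[F] V) (m : ℤ) :
    ∑ Y : Submodule F V with Y.map T ≤ Y, ∑ U : Submodule F V with U ≤ Y ∧ U.map T ≤ U,
        wt r m (dm U) (dm Y) =
      r ^ (12 * m * (m - 1)) * ∑ Z : Submodule F V with (Z ⊔ Z.map T).map T ≤ Z ⊔ Z.map T,
        M r (dm Z) * r ^ (-(12 * (m - 1) * dm (Z ⊔ Z.map T))) := by
  rw [← Finset.sum_fiberwise_of_maps_to
    (s := Finset.univ.filter fun Z : Submodule F V => (Z ⊔ Z.map T).map T ≤ Z ⊔ Z.map T)
    (t := Finset.univ.filter fun Y : Submodule F V => Y.map T ≤ Y) (g := fun Z => Z ⊔ Z.map T),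
    Finset.mul_sum]
  · apply Finset.sum_congr rfl
    intro Y hY
    simp only [Finset.mem_filter, Finset.mem_univ, true_and] at hY
    have h1 := sum_invariant r hr hq T ⊥ Y (by simp) hY (fun k => wt r m k (dm Y))
    simp only [bot_le, true_and] at h1
    rw [h1, Finset.mul_sum]
    have hset : ((Finset.univ.filter fun Z : Submodule F V => (Z ⊔ Z.map T).map T ≤ Z ⊔ Z.map T).filter
        (fun Z => Z ⊔ Z.map T = Y)) = Finset.univ.filter fun Z : Submodule F V => Z ⊔ Z.map T = Y := by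
      ext Z
      simp only [Finset.mem_filter, Finset.mem_univ, true_and]
      constructor
      · rintro ⟨_, h⟩; exact h
      · rintro h; rw [h]; exact ⟨hY, rfl⟩
    rw [hset]
    apply Finset.sum_congr rfl
    intro Z hZ
    simp only [Finset.mem_filter, Finset.mem_univ, true_and] at hZ
    rw [hZ]
    have hbot : dm (⊥ : Submodule F V) = 0 := by unfold dm; simp
    have hd : finrank F (Z ⊓ Z.comap T : Submodule F V) =
        finrank F (⊥ : Submodule F V) + finrank F (Z ⊓ Z.comap T : Submodule F V) := by simp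
    have h3 := sum_Icc r hr hq ⊥ _ (Z ⊓ Z.comap T) bot_le hd
      (fun x => wt r m (x + (dm Y - dm Z)) (dm Y))
    simp only [bot_le, true_and, hbot, add_zero] at h3
    rw [h3]
    set d := finrank F (Z ⊓ Z.comap T : Submodule F V) with hdd
    have hdim : (d : ℤ) = 2 * dm Z - dm Y := by
      have := finrank_sup_map_add T Z
      rw [hZ] at this
      unfold dm; omega
    have h4 : (fun x : ℤ => wt r m (x + (dm Y - dm Z)) (dm Y)) =
        fun x : ℤ => r ^ (3 * (2 * m - dm Y - 1) ^ 2 - 4) * th r (2 * x + 1 - d) := by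
      funext x
      unfold wt th
      have e1 : 2 * (x + (dm Y - dm Z)) - dm Y + 1 = 2 * x + 1 - d := by rw [hdim]; ring
      have e2 : r ^ ((2 * x + 1 - (d : ℤ)) ^ 2 + 3 * (2 * m - dm Y - 1) ^ 2 - 4) =
          r ^ (3 * (2 * m - dm Y - 1) ^ 2 - 4) * r ^ ((2 * x + 1 - (d : ℤ)) ^ 2) := by
        rw [← zpow_add₀ hr]; congr 1; ring
      rw [e1, e2]; ring
    rw [h4, G_mul, G_th r hr h2]
    have hsign : (-1 : R) ^ (dm Y - dm Z) * (-1) ^ d = (-1) ^ (dm Z) := by
      rw [← zpow_natCast, ← zpow_add₀ (by norm_num : (-1 : R) ≠ 0)]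
      congr 1; rw [hdim]; ring
    have hexp : r ^ (-(6 * (dm Y - dm Z) * (dm Y - dm Z - 1))) * (r ^ (3 * (2 * m - dm Y - 1) ^ 2 - 4) *
        r ^ (3 * (d : ℤ) ^ 2 + 1)) = r ^ (12 * m * (m - 1)) * (r ^ (6 * dm Z * (dm Z - 1)) *
          r ^ (-(12 * (m - 1) * dm Y))) := by
      rw [← zpow_add₀ hr, ← zpow_add₀ hr, ← zpow_add₀ hr, ← zpow_add₀ hr]
      congr 1
      rw [hdim]; ring
    unfold M
    calc (-1) ^ (dm Y - dm Z) * r ^ (-(6 * (dm Y - dm Z) * (dm Y - dm Z - 1))) *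
          (r ^ (3 * (2 * m - dm Y - 1) ^ 2 - 4) * ((-1) ^ d * r ^ (3 * (d : ℤ) ^ 2 + 1)))
        = ((-1) ^ (dm Y - dm Z) * (-1) ^ d) * (r ^ (-(6 * (dm Y - dm Z) * (dm Y - dm Z - 1))) *
          (r ^ (3 * (2 * m - dm Y - 1) ^ 2 - 4) * r ^ (3 * (d : ℤ) ^ 2 + 1))) := by ring
      _ = _ := by rw [hsign, hexp]; ring
  · intro Z hZ
    simp only [Finset.mem_filter, Finset.mem_univ, true_and] at hZ ⊢
    exact hZ

end Pool.Agent.Helper30.Split
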