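import Mathlib
import Pool.Agent.Helper30.SplitFlag

/-!
The key evaluation: the alternating sum over `U` with `U + TU` stable counts splitting subspaces.
-/

open Module

namespace Pool.Agent.Helper30.Split

open Classical

attribute [local instance] fintypeSubmodule

variable {F : Type*} [Field F] {V : Type*} [AddCommGroup V] [Module F V]

/-- number of linear maps vanishing on a subspace -/
theorem card_hom_vanish {W : Type*} [AddCommGroup W] [Module F W] [Finite V] [Finite W]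
    (U : Submodule F V) :
    Nat.card {f : V →ₗ[F] W // U ≤ LinearMap.ker f} =
      Nat.card F ^ ((finrank F V - finrank F U) * finrank F W) := by
  have e : {f : V →ₗ[F] W // U ≤ LinearMap.ker f} ≃ ((V ⧸ U) →ₗ[F] W) :=
   { toFun := fun f => U.liftQ f.1 f.2
     invFun := fun g => ⟨g.comp U.mkQ, by
        intro x hx
        rw [LinearMap.mem_ker, LinearMap.comp_apply]
        have : U.mkQ x = 0 := (Submodule.Quotient.mk_eq_zero U).2 hx
        rw [this, map_zero]⟩
     left_inv := by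
        intro f
        ext x
        simp
     right_inv := by
        intro g
        ext x
        simp }
  rw [Nat.card_congr e, natCard_eq_pow_finrank (K := F), finrank_linearMap, Submodule.finrank_quotient]

variable [Finite V] {R : Type*} [Field R]

/-- the vanishing part -/
theorem vanish (r : R) (hr : r ≠ 0) (hq : r ^ 12 = (Nat.card F : R)) (T : V →ₗ[F] V)
    (Z A : Submodule F V)
    (hK : (Z ⊓ A) ⊓ (Z ⊓ A).comap T ⊓ Z.comap (T ∘ₗ T) ≠ ⊥) :
    ∑ U : Submodule F V with (U ⊔ U.map T ≤ Z ∧ Z ⊔ (U ⊔ U.map T).map T = ⊤) ∧ U ⊔ U.map T ≤ A,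
      M r (dm U) = 0 := by
  set Kf := (Z ⊓ A) ⊓ (Z ⊓ A).comap T with hKf
  set K0 := Kf ⊓ Z.comap (T ∘ₗ T) with hK0
  by_cases htop : Z ⊔ Kf.map (T ∘ₗ T) = ⊤
  · have hset : (Finset.univ.filter fun U : Submodule F V =>
        (U ⊔ U.map T ≤ Z ∧ Z ⊔ (U ⊔ U.map T).map T = ⊤) ∧ U ⊔ U.map T ≤ A) =
        Finset.univ.filter fun U : Submodule F V => ⊥ ≤ U ∧ U ⊔ K0 = Kf := by
      ext U
      simp only [Finset.mem_filter, Finset.mem_univ, true_and, bot_le]
      have hle : (U ⊔ U.map T ≤ Z ∧ U ⊔ U.map T ≤ A) ↔ U ≤ Kf := by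
        rw [hKf, ← le_inf_iff, sup_le_iff, Submodule.map_le_iff_le_comap, ← le_inf_iff]
      have hmap : U.map T ≤ Z → (Z ⊔ (U ⊔ U.map T).map T = Z ⊔ U.map (T ∘ₗ T)) := by
        intro h
        rw [Submodule.map_sup, ← sup_assoc, sup_eq_left.2 h, ← Submodule.map_comp]
      constructor
      · rintro ⟨⟨h1, h2⟩, h3⟩
        have hUK : U ≤ Kf := hle.1 ⟨h1, h3⟩
        rw [hmap (le_sup_right.trans h1)] at h2
        apply le_antisymm (sup_le hUK inf_le_left)
        intro z hz
        have h4 : T (T z) ∈ Z ⊔ U.map (T ∘ₗ T) := by rw [h2]; trivial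
        obtain ⟨z', hz', w, hw, hzw⟩ := Submodule.mem_sup.1 h4
        obtain ⟨u, hu, rfl⟩ := Submodule.mem_map.1 hw
        have h5 : z - u ∈ K0 := by
          refine ⟨Kf.sub_mem hz (hUK hu), ?_⟩
          rw [SetLike.mem_coe, Submodule.mem_comap, map_sub, LinearMap.comp_apply, ← hzw]
          simpa using hz'
        have : z = u + (z - u) := by abel
        rw [this]
        exact Submodule.add_mem_sup hu h5
      · intro h
        have hUK : U ≤ Kf := le_sup_left.trans h.le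
        obtain ⟨h1, h3⟩ := hle.2 hUK
        refine ⟨⟨h1, ?_⟩, h3⟩
        rw [hmap (le_sup_right.trans h1), ← htop]
        apply le_antisymm (sup_le_sup_left (Submodule.map_mono hUK) _)
        apply sup_le le_sup_left
        rintro _ ⟨z, hz, rfl⟩
        rw [SetLike.mem_coe, ← h] at hz
        obtain ⟨u, hu, x, hx, rfl⟩ := Submodule.mem_sup.1 hz
        rw [map_add]
        exact Submodule.add_mem _ (Submodule.mem_sup_right (Submodule.mem_map_of_mem hu))
          (Submodule.mem_sup_left hx.2)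
    rw [hset]
    have hw := weisner r hr hq ⊥ K0 Kf bot_le inf_le_left
    have hbot : dm (⊥ : Submodule F V) = 0 := by unfold dm; simp
    simp only [hbot, sub_zero] at hw
    rw [hw, if_neg]
    rw [le_bot_iff]; exact hK
  · have hset : (Finset.univ.filter fun U : Submodule F V =>
        (U ⊔ U.map T ≤ Z ∧ Z ⊔ (U ⊔ U.map T).map T = ⊤) ∧ U ⊔ U.map T ≤ A) = ∅ := by
      rw [Finset.filter_eq_empty_iff]
      rintro U _ ⟨⟨h1, h2⟩, h3⟩
      apply htop
      rw [eq_top_iff, ← h2, Submodule.map_sup, ← sup_assoc, sup_eq_left.2 (le_sup_right.trans h1),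
        ← Submodule.map_comp]
      apply sup_le_sup_left
      apply Submodule.map_mono
      rw [hKf]
      refine le_inf (le_sup_left.trans (le_inf h1 h3)) ?_
      rw [← Submodule.map_le_iff_le_comap]
      exact le_sup_right.trans (le_inf h1 h3)
    rw [hset, Finset.sum_empty]

theorem ker_ne_bot_of_small {W : Type*} [AddCommGroup W] [Module F W] [Finite W] (T : V →ₗ[F] V)
    (Z : Submodule F V) (f : V →ₗ[F] W)
    (h : 3 * (finrank F V - finrank F Z) + 2 * finrank F W < finrank F V) :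
    (Z ⊓ LinearMap.ker f) ⊓ (Z ⊓ LinearMap.ker f).comap T ⊓ Z.comap (T ∘ₗ T) ≠ ⊥ := by
  have : Finite (V ⧸ Z) := Finite.of_surjective _ (Submodule.mkQ_surjective Z)
  let Ψ : V →ₗ[F] ((V ⧸ Z) × (V ⧸ Z) × (V ⧸ Z) × W × W) :=
    (Z.mkQ).prod ((Z.mkQ ∘ₗ T).prod ((Z.mkQ ∘ₗ (T ∘ₗ T)).prod (f.prod (f ∘ₗ T))))
  have hlt : finrank F ((V ⧸ Z) × (V ⧸ Z) × (V ⧸ Z) × W × W) < finrank F V := by
    rw [Module.finrank_prod, Module.finrank_prod, Module.finrank_prod, Module.finrank_prod,
      Submodule.finrank_quotient]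
    omega
  have hne := LinearMap.ker_ne_bot_of_finrank_lt (f := Ψ) hlt
  have hker : LinearMap.ker Ψ =
      (Z ⊓ LinearMap.ker f) ⊓ (Z ⊓ LinearMap.ker f).comap T ⊓ Z.comap (T ∘ₗ T) := by
    ext x
    rw [LinearMap.mem_ker]
    have hx : Ψ x = (Z.mkQ x, Z.mkQ (T x), Z.mkQ (T (T x)), f x, f (T x)) := rfl
    rw [hx]
    simp only [Prod.mk_eq_zero, Submodule.mem_inf, Submodule.mem_comap, LinearMap.mem_ker,
      LinearMap.comp_apply, Submodule.mkQ_apply, Submodule.Quotient.mk_eq_zero]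
    tauto
  rw [← hker]; exact hne

theorem vanish_sum [Finite F] (r : R) (hr : r ≠ 0) (hq : r ^ 12 = (Nat.card F : R)) (T : V →ₗ[F] V)
    (Z : Submodule F V) (δ : ℕ) (h : 3 * (finrank F V - finrank F Z) + 2 * δ < finrank F V) :
    ∑ U : Submodule F V with U ⊔ U.map T ≤ Z ∧ Z ⊔ (U ⊔ U.map T).map T = ⊤,
      M r (dm U) * r ^ (12 * (δ : ℤ) * ((finrank F V : ℤ) - dm (U ⊔ U.map T))) = 0 := by
  have : Finite (V →ₗ[F] (Fin δ → F)) := DFunLike.finite _
  have : Fintype (V →ₗ[F] (Fin δ → F)) := Fintype.ofFinite _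
  have hterm : ∀ U : Submodule F V, r ^ (12 * (δ : ℤ) * ((finrank F V : ℤ) - dm (U ⊔ U.map T))) =
      ∑ f : V →ₗ[F] (Fin δ → F), if U ⊔ U.map T ≤ LinearMap.ker f then (1 : R) else 0 := by
    intro U
    rw [Finset.sum_boole]
    have h1 := card_hom_vanish (W := Fin δ → F) (U ⊔ U.map T)
    rw [Nat.card_eq_fintype_card, Fintype.card_subtype, Module.finrank_fin_fun] at h1
    rw [h1]
    push_cast
    rw [← hq, ← pow_mul, ← zpow_natCast]
    congr 1
    have := Submodule.finrank_le (U ⊔ U.map T)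
    push_cast [Nat.cast_sub this]
    ring
  have : ∑ U : Submodule F V with U ⊔ U.map T ≤ Z ∧ Z ⊔ (U ⊔ U.map T).map T = ⊤,
      M r (dm U) * r ^ (12 * (δ : ℤ) * ((finrank F V : ℤ) - dm (U ⊔ U.map T))) =
      ∑ f : V →ₗ[F] (Fin δ → F), ∑ U : Submodule F V with
        (U ⊔ U.map T ≤ Z ∧ Z ⊔ (U ⊔ U.map T).map T = ⊤) ∧ U ⊔ U.map T ≤ LinearMap.ker f, M r (dm U) := by
    simp only [hterm, Finset.mul_sum]
    rw [Finset.sum_comm]
    apply Finset.sum_congr rfl
    intro f _
    rw [Finset.sum_filter, Finset.sum_filter]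
    apply Finset.sum_congr rfl
    intro U _
    by_cases h1 : U ⊔ U.map T ≤ LinearMap.ker f <;>
    by_cases h2 : U ⊔ U.map T ≤ Z ∧ Z ⊔ (U ⊔ U.map T).map T = ⊤ <;> simp [h1, h2]
  rw [this]
  apply Finset.sum_eq_zero
  intro f _
  apply vanish r hr hq T Z (LinearMap.ker f)
  apply ker_ne_bot_of_small
  rw [Module.finrank_fin_fun]; exact h

/-- the geometry of the extremal terms -/
theorem extremal_iff (T : V →ₗ[F] V) (m : ℕ) (hn : finrank F V = 3 * m) (U Z : Submodule F V) :
    (finrank F Z + m ≤ finrank F V ∧ (U ⊔ U.map T ≤ Z ∧ Z ⊔ (U ⊔ U.map T).map T = ⊤)) ↔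
      (Z = U ⊔ U.map T ∧ (finrank F U = m ∧ U ⊔ U.map T ⊔ U.map (T ∘ₗ T) = ⊤)) := by
  constructor
  · rintro ⟨hc, hle, htop⟩
    have hUZ : U ≤ Z := le_sup_left.trans hle
    have hTUZ : U.map T ≤ Z := le_sup_right.trans hle
    have htop2 : Z ⊔ U.map (T ∘ₗ T) = ⊤ := by
      rw [Submodule.map_sup, ← sup_assoc, sup_eq_left.2 hTUZ, ← Submodule.map_comp] at htop
      exact htop
    have hZT : Z ⊔ Z.map T = ⊤ := by
      rw [eq_top_iff, ← htop]
      exact sup_le_sup_left (Submodule.map_mono hle) _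
    have h1 := finrank_sup_map_add T Z
    rw [hZT, finrank_top] at h1
    have hUZ1 : U ≤ Z ⊓ Z.comap T := le_inf hUZ (Submodule.map_le_iff_le_comap.1 hTUZ)
    have h2 := Submodule.finrank_mono hUZ1
    -- the map U → V/Z
    have hk := LinearMap.finrank_range_add_finrank_ker (Z.mkQ.comp ((T ∘ₗ T).comp U.subtype))
    have hrange : LinearMap.range (Z.mkQ.comp ((T ∘ₗ T).comp U.subtype)) = ⊤ := by
      rw [LinearMap.range_comp, LinearMap.range_comp, Submodule.range_subtype]
      have h3 : (Z ⊔ U.map (T ∘ₗ T)).map Z.mkQ = (⊤ : Submodule F V).map Z.mkQ := by rw [htop2]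
      rw [Submodule.map_sup, Submodule.mkQ_map_self, bot_sup_eq, Submodule.map_top, Submodule.range_mkQ] at h3
      exact h3
    rw [hrange, finrank_top, Submodule.finrank_quotient] at hk
    have hu : finrank F U = m := by omega
    have hz : finrank F Z = 2 * m := by omega
    have hker : finrank F (LinearMap.ker (Z.mkQ.comp ((T ∘ₗ T).comp U.subtype))) = 0 := by omega
    rw [Submodule.finrank_eq_zero] at hker
    have hbot : U ⊓ U.comap T = ⊥ := by
      rw [eq_bot_iff]
      rintro y ⟨hyU, hyT⟩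
      have hy : (⟨y, hyU⟩ : U) ∈ LinearMap.ker (Z.mkQ.comp ((T ∘ₗ T).comp U.subtype)) := by
        rw [LinearMap.mem_ker]
        simp only [LinearMap.comp_apply, Submodule.subtype_apply, Submodule.mkQ_apply,
          Submodule.Quotient.mk_eq_zero]
        exact hTUZ (Submodule.mem_map_of_mem hyT)
      rw [hker, Submodule.mem_bot] at hy
      have := congrArg Subtype.val hy
      simpa using this
    have h4 := finrank_sup_map_add T U
    rw [hbot, finrank_bot] at h4
    have hZU : U ⊔ U.map T = Z := Submodule.eq_of_le_of_finrank_eq hle (by omega)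
    refine ⟨hZU.symm, hu, ?_⟩
    rw [hZU]; exact htop2
  · rintro ⟨rfl, hu, htop⟩
    have h1 : finrank F (U ⊔ U.map T : Submodule F V) ≤ 2 * m := by
      have a := Submodule.finrank_add_le_finrank_add_finrank U (U.map T)
      have b := Submodule.finrank_map_le T U
      omega
    refine ⟨by omega, le_rfl, ?_⟩
    rw [Submodule.map_sup, ← sup_assoc, sup_assoc U, sup_idem, ← Submodule.map_comp]
    exact htop

theorem claimB [Finite F] (r : R) (hr : r ≠ 0) (hq : r ^ 12 = (Nat.card F : R)) (T : V →ₗ[F] V) (m : ℕ)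
    (hn : finrank F V = 3 * m) :
    ∑ U : Submodule F V with (U ⊔ U.map T).map T ≤ U ⊔ U.map T,
        M r (dm U) * r ^ (12 * ((m : ℤ) - 1) * ((finrank F V : ℤ) - dm (U ⊔ U.map T))) =
      r ^ (12 * (m : ℤ) * (m - 1)) *
        (Nat.card {U : Submodule F V // finrank F U = m ∧ U ⊔ U.map T ⊔ U.map (T ∘ₗ T) = ⊤} : R) := by
  set n : ℤ := (finrank F V : ℤ) with hnn
  have step1 : ∑ U : Submodule F V with (U ⊔ U.map T).map T ≤ U ⊔ U.map T,
        M r (dm U) * r ^ (12 * ((m : ℤ) - 1) * (n - dm (U ⊔ U.map T))) =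
      ∑ U : Submodule F V, ∑ Z : Submodule F V with U ⊔ U.map T ≤ Z ∧ Z ⊔ (U ⊔ U.map T).map T = ⊤,
        M r (dm U) * r ^ (12 * ((m : ℤ) - 1) * (n - dm (U ⊔ U.map T))) *
          N r (n - dm Z) (n - dm (U ⊔ U.map T)) := by
    rw [Finset.sum_filter]
    apply Finset.sum_congr rfl
    intro U _
    have h := indicator_expand r hr hq (U ⊔ U.map T) ((U ⊔ U.map T).map T) ⊤ le_top le_top
    have htop : dm (⊤ : Submodule F V) = n := by unfold dm; rw [finrank_top]
    rw [htop] at h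
    rw [← Finset.mul_sum, h]
    split_ifs <;> simp
  rw [step1, Finset.sum_comm' (t' := (Finset.univ : Finset (Submodule F V)))
    (s' := fun Z : Submodule F V => Finset.univ.filter fun U : Submodule F V =>
      U ⊔ U.map T ≤ Z ∧ Z ⊔ (U ⊔ U.map T).map T = ⊤)
    (by intro U Z; simp)]
  rw [← Finset.sum_filter_add_sum_filter_not (Finset.univ : Finset (Submodule F V))
    (fun Z : Submodule F V => finrank F Z + m ≤ finrank F V)]
  have hzero : ∑ Z ∈ Finset.univ.filter (fun Z : Submodule F V => ¬ (finrank F Z + m ≤ finrank F V)),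
      ∑ U : Submodule F V with U ⊔ U.map T ≤ Z ∧ Z ⊔ (U ⊔ U.map T).map T = ⊤,
        M r (dm U) * r ^ (12 * ((m : ℤ) - 1) * (n - dm (U ⊔ U.map T))) *
          N r (n - dm Z) (n - dm (U ⊔ U.map T)) = 0 := by
    apply Finset.sum_eq_zero
    intro Z hZ
    simp only [Finset.mem_filter, Finset.mem_univ, true_and, not_le] at hZ
    have hZn := Submodule.finrank_le Z
    obtain ⟨δ, hδ⟩ : ∃ δ : ℕ, (finrank F V - finrank F Z) + δ + 1 = m :=
      ⟨m - 1 - (finrank F V - finrank F Z), by omega⟩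
    have hv := vanish_sum r hr hq T Z δ (by omega)
    have hconv : ∀ U : Submodule F V, M r (dm U) * r ^ (12 * ((m : ℤ) - 1) * (n - dm (U ⊔ U.map T))) *
          N r (n - dm Z) (n - dm (U ⊔ U.map T)) =
        ((-1) ^ (n - dm Z) * r ^ (6 * ((n - dm Z) ^ 2 + (n - dm Z)))) *
          (M r (dm U) * r ^ (12 * (δ : ℤ) * (n - dm (U ⊔ U.map T)))) := by
      intro U
      unfold N
      have hδ' : (δ : ℤ) = (m : ℤ) - 1 - (n - dm Z) := by rw [hnn]; unfold dm; omega
      have : r ^ (12 * ((m : ℤ) - 1) * (n - dm (U ⊔ U.map T))) *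
          r ^ (6 * ((n - dm Z) ^ 2 + (n - dm Z) - 2 * (n - dm Z) * (n - dm (U ⊔ U.map T)))) =
          r ^ (6 * ((n - dm Z) ^ 2 + (n - dm Z))) * r ^ (12 * (δ : ℤ) * (n - dm (U ⊔ U.map T))) := by
        rw [← zpow_add₀ hr, ← zpow_add₀ hr]; congr 1; rw [hδ']; ring
      calc _ = M r (dm U) * (-1) ^ (n - dm Z) * (r ^ (12 * ((m : ℤ) - 1) * (n - dm (U ⊔ U.map T))) *
          r ^ (6 * ((n - dm Z) ^ 2 + (n - dm Z) - 2 * (n - dm Z) * (n - dm (U ⊔ U.map T))))) := by ring
        _ = _ := by rw [this]; ring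
    rw [Finset.sum_congr rfl (fun U _ => hconv U), ← Finset.mul_sum, hv, mul_zero]
  rw [hzero, add_zero]
  rw [Finset.sum_comm' (t' := Finset.univ.filter fun U : Submodule F V =>
      finrank F U = m ∧ U ⊔ U.map T ⊔ U.map (T ∘ₗ T) = ⊤)
    (s' := fun U : Submodule F V => ({U ⊔ U.map T} : Finset (Submodule F V)))]
  · have hval : ∀ U ∈ (Finset.univ.filter fun U : Submodule F V =>
      finrank F U = m ∧ U ⊔ U.map T ⊔ U.map (T ∘ₗ T) = ⊤),
        (∑ Z ∈ ({U ⊔ U.map T} : Finset (Submodule F V)),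
          M r (dm U) * r ^ (12 * ((m : ℤ) - 1) * (n - dm (U ⊔ U.map T))) *
          N r (n - dm Z) (n - dm (U ⊔ U.map T))) = r ^ (12 * (m : ℤ) * (m - 1)) := by
      intro U hU
      simp only [Finset.mem_filter, Finset.mem_univ, true_and] at hU
      rw [Finset.sum_singleton]
      have h1 := (extremal_iff T m hn U (U ⊔ U.map T)).2 ⟨rfl, hU⟩
      have hu : dm U = m := by unfold dm; rw [hU.1]
      have hle : finrank F (U ⊔ U.map T : Submodule F V) ≤ 2 * m := by
        have a := Submodule.finrank_add_le_finrank_add_finrank U (U.map T)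
        have b := Submodule.finrank_map_le T U
        omega
      have hge : 2 * m ≤ finrank F (U ⊔ U.map T : Submodule F V) := by
        have a := Submodule.finrank_add_le_finrank_add_finrank (U ⊔ U.map T) (U.map (T ∘ₗ T))
        rw [hU.2, finrank_top] at a
        have b := Submodule.finrank_map_le (T ∘ₗ T) U
        omega
      have hu' : n - dm (U ⊔ U.map T) = m := by rw [hnn]; unfold dm; omega
      rw [hu', hu]
      unfold M N
      have hs : (-1 : R) ^ (m : ℤ) * (-1) ^ (m : ℤ) = 1 := by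
        rw [← mul_zpow]; simp
      have he : r ^ (6 * (m : ℤ) * (m - 1)) * (r ^ (12 * ((m : ℤ) - 1) * m) *
          r ^ (6 * ((m : ℤ) ^ 2 + m - 2 * m * m))) = r ^ (12 * (m : ℤ) * (m - 1)) := by
        rw [← zpow_add₀ hr, ← zpow_add₀ hr]; congr 1; ring
      calc _ = ((-1 : R) ^ (m : ℤ) * (-1) ^ (m : ℤ)) * (r ^ (6 * (m : ℤ) * (m - 1)) *
          (r ^ (12 * ((m : ℤ) - 1) * m) * r ^ (6 * ((m : ℤ) ^ 2 + m - 2 * m * m)))) := by ring
        _ = _ := by rw [hs, he, one_mul]
    rw [Finset.sum_congr rfl hval, Finset.sum_const, nsmul_eq_mul, mul_comm]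
    congr 2
    rw [Nat.card_eq_fintype_card, Fintype.card_subtype]
  · intro Z U
    simp only [Finset.mem_filter, Finset.mem_univ, true_and, Finset.mem_singleton]
    exact extremal_iff T m hn U Z

end Pool.Agent.Helper30.Split
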