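import Mathlib
import Pool.Agent.Helper30.SplitMain

/-!
Assembly: the complex weight and the final identity for an endomorphism of a finite space.
-/

open Module

namespace Pool.Agent.Helper30.Split

open Classical

attribute [local instance] fintypeSubmodule

variable {F : Type*} [Field F] {V : Type*} [AddCommGroup V] [Module F V] [Finite V]

/-- the sum over stable flags with the real weight -/
theorem sum_flags_eq {R : Type*} [Field R] [Finite F] (r : R) (hr : r ≠ 0) (h2 : (2 : R) ≠ 0)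
    (hq : r ^ 12 = (Nat.card F : R)) (T : V →ₗ[F] V) (m : ℕ) (hn : finrank F V = 3 * m) :
    ∑ Y : Submodule F V with Y.map T ≤ Y, ∑ U : Submodule F V with U ≤ Y ∧ U.map T ≤ U,
        wt r m (dm U) (dm Y) =
      r ^ (-(12 * (m : ℤ) * (m - 1))) *
        (Nat.card {U : Submodule F V // finrank F U = m ∧ U ⊔ U.map T ⊔ U.map (T ∘ₗ T) = ⊤} : R) := by
  rw [sum_flags r hr h2 hq T m]
  have hB := claimB r hr hq T m hn
  have hconv : ∀ Z : Submodule F V, M r (dm Z) * r ^ (-(12 * ((m : ℤ) - 1) * dm (Z ⊔ Z.map T))) =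
      r ^ (-(36 * (m : ℤ) * (m - 1))) *
        (M r (dm Z) * r ^ (12 * ((m : ℤ) - 1) * ((finrank F V : ℤ) - dm (Z ⊔ Z.map T)))) := by
    intro Z
    have : r ^ (-(12 * ((m : ℤ) - 1) * dm (Z ⊔ Z.map T))) = r ^ (-(36 * (m : ℤ) * (m - 1))) *
        r ^ (12 * ((m : ℤ) - 1) * ((finrank F V : ℤ) - dm (Z ⊔ Z.map T))) := by
      rw [← zpow_add₀ hr]; congr 1; rw [hn]; push_cast; ring
    rw [this]; ring
  rw [Finset.sum_congr rfl (fun Z _ => hconv Z), ← Finset.mul_sum, hB, ← mul_assoc, ← mul_assoc,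
    ← zpow_add₀ hr, ← zpow_add₀ hr]
  congr 2
  ring

/-- the function `g` of the problem, on integers -/
def gZ (a b : ℤ) : ℤ := if (a + 2 * b) % 3 = 2 then 2 * a + b else a + 2 * b

/-- complex weight of the flag with `dim U = k`, `dim Y = y`, in terms of `r` -/
noncomputable def cwt (r ω : ℂ) (m k y : ℤ) : ℂ :=
  ω ^ ((y - k) + 2 * (3 * m - y)) *
    r ^ (12 * (m ^ 2 - m) + 2 * (k * (k - 1) + (y - k) * (y - k - 1) + (3 * m - y) * (3 * m - y - 1))
      - 4 * gZ (y - k) (3 * m - y))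

theorem omega_zpow {ω : ℂ} (hω : IsPrimitiveRoot ω 3) (k : ℤ) :
    ω ^ k = ω ^ (k % 3) := by
  have h3 : ω ^ (3 : ℤ) = 1 := by
    have := hω.pow_eq_one
    exact_mod_cast this
  have hne : ω ≠ 0 := hω.ne_zero (by norm_num)
  conv_lhs => rw [← Int.emod_add_mul_ediv k 3]
  rw [zpow_add₀ hne, zpow_mul, h3, one_zpow, mul_one]

theorem omega_sum {ω : ℂ} (hω : IsPrimitiveRoot ω 3) : 1 + ω + ω ^ 2 = 0 := by
  have h3 := hω.pow_eq_one
  have h1 : ω ≠ 1 := hω.ne_one (by norm_num)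
  have : (ω - 1) * (1 + ω + ω ^ 2) = 0 := by ring_nf; rw [h3]; ring
  exact (mul_eq_zero.mp this).resolve_left (sub_ne_zero.mpr h1)

/-- split of the complex weight: part symmetric under the transposition -/
theorem cwt_add_swap {r ω : ℂ} (hr : r ≠ 0) (hω : IsPrimitiveRoot ω 3) (m k y : ℤ) :
    (if (6 * m - y - k) % 3 = 2 then 0 else cwt r ω m k y) +
      (if (6 * m - (k + 3 * m - y) - k) % 3 = 2 then cwt r ω m k (k + 3 * m - y) else 0) =
    r ^ (12 * (m ^ 2 - m) + 6 * (m ^ 2 - 3 * m)) * wt r m k y := by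
  have hh : (6 * m - y - k) % 3 = 0 ∨ (6 * m - y - k) % 3 = 1 ∨ (6 * m - y - k) % 3 = 2 := by omega
  unfold cwt wt gZ chi
  have ha : (y - k) + 2 * (3 * m - y) = 6 * m - y - k := by ring
  have hb : (k + 3 * m - y - k) + 2 * (3 * m - (k + 3 * m - y)) = 3 * m - 2 * k + y := by ring
  rw [omega_zpow hω ((y - k) + 2 * (3 * m - y)),
    omega_zpow hω ((k + 3 * m - y - k) + 2 * (3 * m - (k + 3 * m - y))), ha, hb]
  have hs := omega_sum hω
  rcases hh with h | h | h
  · have h' : ¬ ((6 * m - (k + 3 * m - y) - k) % 3 = 2) := by omega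
    have h1 : (2 * k - y + 1) % 3 = 1 := by omega
    have h2 : ¬ ((6 * m - y - k) % 3 = 2) := by omega
    rw [if_neg h2, if_neg h', h, h1, zpow_zero]
    simp only [one_mul, add_zero]
    norm_num
    rw [← zpow_add₀ hr]; congr 1; ring
  · have h' : (6 * m - (k + 3 * m - y) - k) % 3 = 2 := by omega
    have h1 : (2 * k - y + 1) % 3 = 2 := by omega
    have h2 : ¬ ((6 * m - y - k) % 3 = 2) := by omega
    have h3 : (3 * m - 2 * k + y) % 3 = 2 := by omega
    rw [if_neg h2, if_pos h', h, h1, h3, if_pos rfl]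
    norm_num
    have e1 : r ^ (12 * (m ^ 2 - m) + 2 * (k * (k - 1) + (y - k) * (y - k - 1) +
        (3 * m - y) * (3 * m - y - 1)) - 4 * (6 * m - y - k)) =
        r ^ (12 * (m ^ 2 - m) + 6 * (m ^ 2 - 3 * m)) *
          r ^ ((2 * k - y + 1) ^ 2 + 3 * (2 * m - y - 1) ^ 2 - 4) := by
      rw [← zpow_add₀ hr]; congr 1; ring
    have e2 : 12 * (m ^ 2 - m) + 2 * (k * (k - 1) + (k + 3 * m - y - k) * (k + 3 * m - y - k - 1) +
        (3 * m - (k + 3 * m - y)) * (3 * m - (k + 3 * m - y) - 1)) -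
        4 * (2 * (k + 3 * m - y - k) + (3 * m - (k + 3 * m - y))) =
        12 * (m ^ 2 - m) + 2 * (k * (k - 1) + (y - k) * (y - k - 1) +
        (3 * m - y) * (3 * m - y - 1)) - 4 * (6 * m - y - k) := by ring
    rw [e2, e1]
    linear_combination (r ^ (12 * (m ^ 2 - m) + 6 * (m ^ 2 - 3 * m)) *
      r ^ ((2 * k - y + 1) ^ 2 + 3 * (2 * m - y - 1) ^ 2 - 4)) * hs
  · have h' : ¬ ((6 * m - (k + 3 * m - y) - k) % 3 = 2) := by omega
    have h1 : (2 * k - y + 1) % 3 = 0 := by omega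
    rw [if_pos h, if_neg h', h1]
    norm_num

theorem total [Finite F] {r ω : ℂ} (hr : r ≠ 0) (hω : IsPrimitiveRoot ω 3)
    (hq : r ^ 12 = (Nat.card F : ℂ)) (T : V →ₗ[F] V) (m : ℕ) (hn : finrank F V = 3 * m) :
    ∑ U : Submodule F V with U.map T ≤ U, ∑ Y : Submodule F V with U ≤ Y ∧ Y.map T ≤ Y,
        cwt r ω m (dm U) (dm Y) =
      r ^ (6 * ((m : ℤ) ^ 2 - 3 * m)) *
        (Nat.card {U : Submodule F V // finrank F U = m ∧ U ⊔ U.map T ⊔ U.map (T ∘ₗ T) = ⊤} : ℂ) := by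
  have h1 : ∀ U ∈ (Finset.univ.filter fun U : Submodule F V => U.map T ≤ U),
      (∑ Y : Submodule F V with U ≤ Y ∧ Y.map T ≤ Y, cwt r ω m (dm U) (dm Y)) =
      ∑ Y : Submodule F V with U ≤ Y ∧ Y.map T ≤ Y,
        r ^ (12 * ((m : ℤ) ^ 2 - m) + 6 * ((m : ℤ) ^ 2 - 3 * m)) * wt r m (dm U) (dm Y) := by
    intro U hU
    simp only [Finset.mem_filter, Finset.mem_univ, true_and] at hU
    have hs := sum_invariant_symm r hr hq T U ⊤ hU le_top
      (fun y => if (6 * (m : ℤ) - y - dm U) % 3 = 2 then cwt r ω m (dm U) y else 0)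
    simp only [le_top, true_and] at hs
    have htop : dm (⊤ : Submodule F V) = 3 * m := by unfold dm; rw [finrank_top, hn]; push_cast; ring
    rw [htop] at hs
    have hsplit : ∀ Y : Submodule F V, cwt r ω m (dm U) (dm Y) =
        (if (6 * (m : ℤ) - dm Y - dm U) % 3 = 2 then 0 else cwt r ω m (dm U) (dm Y)) +
        (if (6 * (m : ℤ) - dm Y - dm U) % 3 = 2 then cwt r ω m (dm U) (dm Y) else 0) := by
      intro Y
      split_ifs <;> simp
    rw [Finset.sum_congr rfl (fun Y _ => hsplit Y), Finset.sum_add_distrib, hs,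
      ← Finset.sum_add_distrib]
    apply Finset.sum_congr rfl
    intro Y _
    exact cwt_add_swap hr hω m (dm U) (dm Y)
  rw [Finset.sum_congr rfl h1]
  have hF := sum_flags_eq r hr (by norm_num) hq T m hn
  rw [Finset.sum_comm' (t' := Finset.univ.filter fun U : Submodule F V => U.map T ≤ U)
    (s' := fun U : Submodule F V => Finset.univ.filter fun Y : Submodule F V => U ≤ Y ∧ Y.map T ≤ Y)
    (by
      intro Y U
      simp only [Finset.mem_filter, Finset.mem_univ, true_and]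
      tauto)] at hF
  simp only [← Finset.mul_sum]
  rw [hF, ← mul_assoc, ← zpow_add₀ hr]
  congr 2
  ring

end Pool.Agent.Helper30.Split
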